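import Mathlib
import Pool.Agent.W2helper8.ZQ.Stm

/-! Piece KER of project ZQ (helper8): the double sum with a weight is bounded by the double sum with the kernel. -/

set_option autoImplicit false

namespace Pool.Agent.W2helper69.ZQ

open Finset Filter Topology MeasureTheory Complex
open Pool.Agent.W2helper8.ZQ

/-- the trivial bound of the twisted integral of the weight -/
lemma triv {C κ T : ℝ} {w : ℝ → ℝ} (hT : 2 ≤ T) (hw : Wt C κ T w) (l : ℝ) :
    ‖∫ t in (T / 2)..(3 * T), (w t : ℂ) * e (l * t)‖ ≤ 5 / 2 * T := by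
  have h := intervalIntegral.norm_integral_le_of_norm_le_const (a := T / 2) (b := 3 * T)
    (f := fun t : ℝ => (w t : ℂ) * e (l * t)) (C := 1) (fun t _ => by
      rw [norm_mul, norm_e, mul_one, Complex.norm_real, Real.norm_eq_abs, abs_of_nonneg (hw.nn t)]
      exact hw.le1 t)
  refine h.trans ?_
  rw [one_mul, abs_of_nonneg (by linarith)]
  linarith

/-- one twisted integral of the weight -/
lemma one {C κ T : ℝ} {w : ℝ → ℝ} (hC : 0 < C) (hT : 2 ≤ T) (hw : Wt C κ T w) (l : ℝ) :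
    ‖∫ t in (T / 2)..(3 * T), (w t : ℂ) * e (l * t)‖ ≤ (5 + 2 * C) * T * (1 / (1 + (T * l) ^ 2)) := by
  have hT0 : 0 < T := by linarith
  have hp : 0 < 1 + (T * l) ^ 2 := by positivity
  rw [mul_one_div, le_div_iff₀ hp]
  by_cases h : (T * l) ^ 2 ≤ 1
  · have h1 := triv hT hw l
    calc ‖∫ t in (T / 2)..(3 * T), (w t : ℂ) * e (l * t)‖ * (1 + (T * l) ^ 2)
        ≤ (5 / 2 * T) * (1 + 1) := by gcongr
      _ ≤ (5 + 2 * C) * T := by nlinarith
  · push Not at h
    have hl : l ≠ 0 := by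
      rintro rfl
      norm_num at h
    have h1 := hw.dec l hl
    have hl2 : 0 < l ^ 2 := by positivity
    calc ‖∫ t in (T / 2)..(3 * T), (w t : ℂ) * e (l * t)‖ * (1 + (T * l) ^ 2)
        ≤ (C / (T * l ^ 2)) * ((T * l) ^ 2 + (T * l) ^ 2) := by gcongr
      _ = 2 * C * T := by field_simp; ring
      _ ≤ (5 + 2 * C) * T := by nlinarith

/-- KER -/
theorem p_ker : S_KER := by
  intro C hC
  refine ⟨5 + 2 * C, by positivity, ?_⟩
  intro T κ w hT hw x hx
  unfold DS KS
  refine (norm_sum_le _ _).trans ?_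
  rw [Finset.mul_sum]
  refine Finset.sum_le_sum fun m _ => ?_
  refine (norm_sum_le _ _).trans ?_
  rw [Finset.mul_sum]
  refine Finset.sum_le_sum fun n _ => ?_
  have h := one hC hT hw (Real.log x + Real.log n - Real.log m)
  have hn : ‖((1 / (Real.sqrt m * Real.sqrt n) : ℝ) : ℂ)‖ = 1 / (Real.sqrt m * Real.sqrt n) := by
    rw [Complex.norm_real, Real.norm_eq_abs, abs_of_nonneg (by positivity)]
  have h0 : 0 ≤ 1 / (Real.sqrt m * Real.sqrt n) := by positivity
  calc ‖((1 / (Real.sqrt m * Real.sqrt n) : ℝ) : ℂ) *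
        ∫ t in (T / 2)..(3 * T), (w t : ℂ) * e ((Real.log x + Real.log n - Real.log m) * t)‖
      = 1 / (Real.sqrt m * Real.sqrt n) *
        ‖∫ t in (T / 2)..(3 * T), (w t : ℂ) * e ((Real.log x + Real.log n - Real.log m) * t)‖ := by
        rw [norm_mul, hn]
    _ ≤ 1 / (Real.sqrt m * Real.sqrt n) *
        ((5 + 2 * C) * T * (1 / (1 + (T * (Real.log x + Real.log n - Real.log m)) ^ 2))) :=
        mul_le_mul_of_nonneg_left h h0
    _ = (5 + 2 * C) * T * (1 / (Real.sqrt m * Real.sqrt n) *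
        (1 / (1 + (T * (Real.log x + Real.log n - Real.log m)) ^ 2))) := by ring

end Pool.Agent.W2helper69.ZQ
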